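import Pool.Agent.H.MP_4761b7_gt.D

namespace Pool.Agent.H.MP_4761b7_gt
open Set NNReal ENNReal MT
variable {n : ℕ}

/-- the map `(i, t) ↦ (σ i, t + ε)` -/
def mp (T T' : MT n) (σ : Fin n → Fin n) (ε : ℝ≥0) (h : ∀ i j, T'.m (σ i) (σ j) ≤ T.m i j + ε) :
    C(T.Sp, T'.Sp) where
  toFun := Quotient.map (fun p => ⟨(σ p.1.1, p.1.2 + ε), (h _ _).trans (add_le_add_left p.2 _)⟩)
    fun _ _ k => ⟨congrArg (· + (ε : ℝ)) k.1, (h _ _).trans (add_le_add_left k.2 _)⟩
  continuous_toFun := Continuous.quotient_map' (Continuous.subtype_mk (Continuous.prodMk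
    ((continuous_of_discreteTopology (f := σ)).comp (continuous_fst.comp continuous_subtype_val))
    ((continuous_snd.comp continuous_subtype_val).add continuous_const)) _) _

theorem mp_pt {T T' : MT n} {σ ε h i t h'} : mp T T' σ ε h (T.pt i t h') =
    T'.pt (σ i) (t + ε) ((h _ _).trans (add_le_add_left h' _)) := rfl

theorem inter_of {T T' : MT n} (σ τ : Fin n → Fin n) (ε : ℝ≥0)
    (h : ∀ i j, T'.m (σ i) (σ j) ≤ T.m i j + ε) (h' : ∀ i j, T.m (τ i) (τ j) ≤ T'.m i j + ε)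
    (k : ∀ i, T.m (τ (σ i)) i ≤ T.m i i + 2 * ε) (k' : ∀ i, T'.m (σ (τ i)) i ≤ T'.m i i + 2 * ε) :
    T.Inter T' ε := by
  refine ⟨mp T T' σ ε h, mp T' T τ ε h', fun x => ?_, fun x => ?_, fun x => ?_, fun x => ?_⟩
  · obtain ⟨i, hi, e⟩ := T.ex_pt x
    rw [e]; rfl
  · obtain ⟨i, hi, e⟩ := T'.ex_pt x
    rw [e]; rfl
  · obtain ⟨i, hi, e⟩ := T.ex_pt x
    rw [e, mp_pt, mp_pt, up_pt, pt_eq]
    exact ⟨by push_cast; ring, by have := k i; linarith⟩
  · obtain ⟨i, hi, e⟩ := T'.ex_pt x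
    rw [e, mp_pt, mp_pt, up_pt, pt_eq]
    exact ⟨by push_cast; ring, by have := k' i; linarith⟩

/-- star: all leaves at height `0`, merging at height `2` -/
def T0 (n : ℕ) : MT n where
  m i j := if i = j then 0 else 2
  symm i j := by simp only [eq_comm]
  diag i j := by split_ifs <;> simp_all
  ultra i j k := by split_ifs <;> simp_all

/-- trunk from height `0`, one branch on `[10, 12]` -/
def T1 (n : ℕ) [NeZero n] : MT n where
  m i j := if i = 0 then (if j = 0 then 0 else 12) else (if j = 0 then 12 else 10)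
  symm i j := by split_ifs <;> rfl
  diag i j := by split_ifs <;> norm_num
  ultra i j k := by split_ifs <;> norm_num

theorem inter01 [NeZero n] : (T0 n).Inter (T1 n) 1 := by
  refine inter_of (fun _ => 0) (fun _ => 0) 1 ?_ ?_ ?_ ?_ <;> intros <;>
    simp only [T0, T1] <;> split_ifs <;> first | contradiction | norm_num

theorem near0 {S : MT n} {x : ℝ≥0} (h : (T0 n).Inter S x) (hx : x < 1) (k l : Fin n) :
    S.m k l ≤ 3 := by
  obtain ⟨α, β, h1, h2, h3, h4⟩ := h
  have hx' : (x : ℝ) < 1 := hx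
  have z (i : Fin n) : (T0 n).m i i ≤ 0 := by simp [T0]
  choose j hj ej using fun i => S.ex_pt (α ((T0 n).pt i 0 (z i)))
  have hf (i : Fin n) : S.f (α ((T0 n).pt i 0 (z i))) = x := by rw [h1, f_pt, zero_add]
  have inj : Function.Injective j := fun a b hab => by
    have : α ((T0 n).pt a 0 (z a)) = α ((T0 n).pt b 0 (z b)) := by
      rw [ej a, ej b, pt_eq]
      exact ⟨(hf a).trans (hf b).symm, hab ▸ hj a⟩
    have e := congrArg β this
    rw [h3, h3, up_pt, up_pt, pt_eq] at e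
    by_contra hne
    have := e.2
    simp only [T0, if_neg hne] at this
    push_cast at this
    linarith
  obtain ⟨a, rfl⟩ := Finite.injective_iff_surjective.mp inj k
  obtain ⟨b, rfl⟩ := Finite.injective_iff_surjective.mp inj l
  have e : (T0 n).up 2 ((T0 n).pt a 0 (z a)) = (T0 n).up 2 ((T0 n).pt b 0 (z b)) := by
    rw [up_pt, up_pt, pt_eq]
    refine ⟨rfl, ?_⟩
    simp only [T0]
    split_ifs <;> norm_num
  have e2 := congrArg α e
  rw [comm α h1, comm α h1, ej a, ej b, up_pt, up_pt, pt_eq] at e2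
  have := e2.2
  rw [hf] at this
  push_cast at this
  linarith

theorem near1 [NeZero n] (hn : 2 ≤ n) {S : MT n} {y : ℝ≥0} (h : (T1 n).Inter S y) (hy : y < 1)
    (hS : ∀ k l, S.m k l ≤ 3) : False := by
  obtain ⟨α, β, h1, h2, h3, h4⟩ := h
  have hy' : (y : ℝ) < 1 := hy
  have y0 : (0 : ℝ) ≤ y := y.2
  have z (i : Fin n) : (T1 n).m i i ≤ 10 := by simp only [T1]; split_ifs <;> norm_num
  have hne : (⟨1, hn⟩ : Fin n) ≠ 0 := fun h => by simpa using congrArg Fin.val h
  obtain ⟨a, ha, ea⟩ := S.ex_pt (α ((T1 n).pt 0 10 (z _)))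
  obtain ⟨b, hb, eb⟩ := S.ex_pt (α ((T1 n).pt ⟨1, hn⟩ 10 (z _)))
  have : α ((T1 n).pt 0 10 (z _)) = α ((T1 n).pt ⟨1, hn⟩ 10 (z _)) := by
    rw [ea, eb, pt_eq, h1, h1, f_pt, f_pt]
    exact ⟨rfl, by have := hS a b; linarith⟩
  have e := congrArg β this
  rw [h3, h3, up_pt, up_pt, pt_eq] at e
  have := e.2
  simp only [T1, if_neg hne, if_true] at this
  push_cast at this
  linarith

theorem far [NeZero n] (hn : 2 ≤ n) {S : MT n} (h : (T0 n).dI S < 1) : 1 ≤ (T1 n).dI S := by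
  obtain ⟨x, hx⟩ := iInf_lt_iff.mp h
  obtain ⟨hx, hx1⟩ := iInf_lt_iff.mp hx
  refine le_iInf₂ fun y hy => not_lt.mp fun hy1 => ?_
  exact near1 hn hy (by exact_mod_cast hy1) (near0 hx (by exact_mod_cast hx1))

theorem gap (hn : 2 ≤ n) : ∃ T T' : MT n, T.dI T' < T.intr T' := by
  haveI : NeZero n := ⟨by omega⟩
  refine ⟨T0 n, T1 n, inter01.dI_le.trans_lt (lt_of_lt_of_le (b := 1 + 2⁻¹) ?_ ?_)⟩
  · simpa using ENNReal.lt_add_right (a := 1) (b := 2⁻¹) (by simp) (by simp)
  refine le_iInf fun γ => ?_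
  have hc : Continuous fun τ => edist (T0 n) (γ τ) := continuous_const.edist γ.continuous
  have h1 : 1 ≤ edist (T0 n) (T1 n) := by
    rw [edist_comm]; exact far hn (by rw [dI_self]; exact zero_lt_one)
  obtain ⟨τ, hτ⟩ : (2⁻¹ : ℝ≥0∞) ∈ range fun τ => edist (T0 n) (γ τ) :=
    intermediate_value_univ 0 1 hc ⟨by simp, by
      rw [γ.target]; exact le_trans (by simp) h1⟩
  have h2 : 1 ≤ edist (T1 n) (γ τ) := far hn (lt_of_eq_of_lt hτ (by simp))
  have := eVariationOn.sum_le (f := γ) (s := univ) (n := 2)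
    (u := fun k => if k = 0 then 0 else if k = 1 then τ else 1)
    (monotone_nat_of_le_succ fun k => by
      rcases k with _ | _ | k <;> simp [unitInterval.nonneg', unitInterval.le_one'])
    fun _ => trivial
  simp only [Finset.sum_range_succ, Finset.range_zero, Finset.sum_empty] at this
  norm_num at this
  rw [edist_comm, add_comm] at this
  exact le_trans (add_le_add h2 hτ.ge) this

def ray (r : ℝ) : MT 1 := ⟨fun _ _ => r, fun _ _ => rfl, fun _ _ => le_rfl, fun _ _ _ => by simp⟩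

theorem one (T T' : MT 1) : T.intr T' = T.dI T' := by
  apply le_antisymm
  · refine le_iInf₂ fun ε ⟨α, β, h1, h2, _⟩ => ?_
    have a1 : T'.m 0 0 ≤ T.m 0 0 + ε := by
      obtain ⟨i, hi, -⟩ := T'.ex_pt (α (T.pt 0 _ le_rfl))
      rwa [h1, f_pt, Subsingleton.elim i 0] at hi
    have a2 : T.m 0 0 ≤ T'.m 0 0 + ε := by
      obtain ⟨i, hi, -⟩ := T.ex_pt (β (T'.pt 0 _ le_rfl))
      rwa [h2, f_pt, Subsingleton.elim i 0] at hi
    have L : LipschitzWith ε fun s : ℝ => ray (T.m 0 0 + s * (T'.m 0 0 - T.m 0 0)) := fun s t => by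
      have b : |(s - t) * (T'.m 0 0 - T.m 0 0)| ≤ ε * |s - t| := by
        rw [abs_mul, mul_comm]
        exact mul_le_mul_of_nonneg_right (abs_le.mpr ⟨by linarith, by linarith⟩) (abs_nonneg _)
      have b' := abs_le.mp b
      have p : (0 : ℝ) ≤ ε * |s - t| := by positivity
      rw [edist_nndist, ← ENNReal.coe_mul]
      refine (inter_of id id _ ?_ ?_ ?_ ?_).dI_le <;> intros <;>
        simp only [ray, NNReal.coe_mul, coe_nndist, Real.dist_eq] <;> linarith [b'.1, b'.2]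
    let γ : Path T T' := ⟨⟨fun s => ray (T.m 0 0 + s * (T'.m 0 0 - T.m 0 0)),
      L.continuous.comp continuous_subtype_val⟩,
      by ext i j; simp [ray, Subsingleton.elim i 0, Subsingleton.elim j 0],
      by ext i j; simp [ray, Subsingleton.elim i 0, Subsingleton.elim j 0]⟩
    refine (iInf_le _ γ).trans ?_
    have := L.lipschitzOnWith.comp_eVariationOn_le (t := univ)
      (g := fun s : unitInterval => (s : ℝ)) (s := univ) (mapsTo_univ _ _)
    refine le_trans this ?_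
    have e := MonotoneOn.eVariationOn_le (f := fun s : unitInterval => (s : ℝ)) (s := univ)
      (fun _ _ _ _ h => h) (mem_univ 0) (mem_univ 1)
    rw [univ_inter, unitInterval.univ_eq_Icc.symm] at e
    simpa using mul_le_mul_right e (ε : ℝ≥0∞)
  · refine le_iInf fun γ => ?_
    have := eVariationOn.edist_le γ (mem_univ 0) (mem_univ 1)
    rwa [γ.source, γ.target] at this

end Pool.Agent.H.MP_4761b7_gt
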