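import Mathlib

namespace Pool.Agent.H.MP_4761b7_gt
open Set NNReal ENNReal

/-- A merge tree with at most `n` leaves, labelled by `Fin n` (with repetition): `m i i` is the
height of label `i`, and `m i j` the height at which the upward paths from `i` and `j` merge. -/
@[ext] structure MT (n : ℕ) where
  m : Fin n → Fin n → ℝ
  symm : ∀ i j, m i j = m j i
  diag : ∀ i j, m i i ≤ m i j
  ultra : ∀ i j k, m i k ≤ max (m i j) (m j k)

namespace MT
variable {n : ℕ} (T : MT n)

/-- Disjoint union of the rays `[m i i, ∞)`. -/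
def Ray : Type := {p : Fin n × ℝ // T.m p.1 p.1 ≤ p.2}

instance : TopologicalSpace T.Ray := instTopologicalSpaceSubtype

/-- Rays `i` and `j` are glued from height `m i j` on. -/
def rel : Setoid T.Ray where
  r p q := p.1.2 = q.1.2 ∧ T.m p.1.1 q.1.1 ≤ p.1.2
  iseqv := ⟨fun p => ⟨rfl, p.2⟩, fun h => ⟨h.1.symm, by rw [T.symm, ← h.1]; exact h.2⟩,
    fun h h' => ⟨h.1.trans h'.1, (T.ultra _ _ _).trans (max_le h.2 (h.1 ▸ h'.2))⟩⟩

/-- The tree as a topological space (quotient topology). -/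
def Sp : Type := Quotient T.rel

instance : TopologicalSpace T.Sp := instTopologicalSpaceQuotient

/-- The height function. -/
def f : T.Sp → ℝ := Quotient.lift (fun p => p.1.2) fun _ _ h => h.1

/-- Moving up a ray by `t`. -/
def upR (t : ℝ≥0) (p : T.Ray) : T.Ray := ⟨(p.1.1, p.1.2 + t), p.2.trans (le_add_of_nonneg_right t.2)⟩

/-- The map `i^t`. -/
def up (t : ℝ≥0) : T.Sp → T.Sp := Quotient.map (T.upR t) fun _ _ h =>
  ⟨congrArg (· + (t : ℝ)) h.1, h.2.trans (le_add_of_nonneg_right t.2)⟩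

/-- There is an `ε`-interleaving of `T` and `T'`. -/
def Inter (T' : MT n) (ε : ℝ≥0) : Prop :=
  ∃ (α : C(T.Sp, T'.Sp)) (β : C(T'.Sp, T.Sp)), (∀ x, T'.f (α x) = T.f x + ε) ∧
    (∀ y, T.f (β y) = T'.f y + ε) ∧ (∀ x, β (α x) = T.up (2 * ε) x) ∧
    ∀ y, α (β y) = T'.up (2 * ε) y

/-- Interleaving distance. -/
noncomputable def dI (T' : MT n) : ℝ≥0∞ := ⨅ (ε : ℝ≥0) (_ : T.Inter T' ε), ε

def pt (i : Fin n) (t : ℝ) (h : T.m i i ≤ t) : T.Sp := Quotient.mk T.rel ⟨(i, t), h⟩

theorem pt_eq {i j : Fin n} {s t : ℝ} {h h'} :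
    T.pt i s h = T.pt j t h' ↔ s = t ∧ T.m i j ≤ s := Quotient.eq

theorem ex_pt (x : T.Sp) : ∃ i h, x = T.pt i (T.f x) h := by
  induction x using Quotient.inductionOn with
  | h p => exact ⟨p.1.1, p.2, rfl⟩

theorem f_pt {i t h} : T.f (T.pt i t h) = t := rfl

theorem up_pt {i t h} (s : ℝ≥0) :
    T.up s (T.pt i t h) = T.pt i (t + s) (h.trans (le_add_of_nonneg_right s.2)) := rfl

theorem f_up (s : ℝ≥0) (x : T.Sp) : T.f (T.up s x) = T.f x + s := by
  induction x using Quotient.inductionOn with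
  | h p => rfl

theorem up_up (s t : ℝ≥0) (x : T.Sp) : T.up s (T.up t x) = T.up (t + s) x := by
  obtain ⟨i, h, hx⟩ := T.ex_pt x
  rw [hx, up_pt, up_pt, up_pt, pt_eq]
  exact ⟨by push_cast; ring, by have := s.2; have := t.2; simp only [val_eq_coe] at *; linarith⟩

theorem up_zero (x : T.Sp) : T.up 0 x = x := by
  obtain ⟨i, h, hx⟩ := T.ex_pt x
  rw [hx, up_pt, pt_eq]
  simpa using h

theorem cont_f : Continuous T.f :=
  Continuous.quotient_lift (continuous_snd.comp continuous_subtype_val) _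

theorem cont_path (x : T.Sp) : Continuous fun s : ℝ≥0 => T.up s x := by
  obtain ⟨i, h, hx⟩ := T.ex_pt x
  rw [hx]
  exact continuous_quotient_mk'.comp (Continuous.subtype_mk (by fun_prop) _)

def g (i : Fin n) : T.Sp → ℝ := Quotient.lift (fun p => max p.1.2 (T.m i p.1.1)) fun p q h => by
  have h1 := T.ultra i p.1.1 q.1.1
  have h2 := T.ultra i q.1.1 p.1.1
  have h3 := T.symm q.1.1 p.1.1
  obtain ⟨h4, h5⟩ := h
  rw [← h4]
  apply le_antisymm
  · exact max_le (le_max_left _ _) (h2.trans (max_le (le_max_right _ _) (le_max_of_le_left (h3 ▸ h5))))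
  · exact max_le (le_max_left _ _) (h1.trans (max_le (le_max_right _ _) (le_max_of_le_left h5)))

theorem cont_g (i : Fin n) : Continuous (T.g i) :=
  Continuous.quotient_lift ((continuous_snd.comp continuous_subtype_val).max
    ((continuous_of_discreteTopology (f := T.m i)).comp
      (continuous_fst.comp continuous_subtype_val))) _

theorem g_pt {i j t h} : T.g i (T.pt j t h) = max t (T.m i j) := rfl

theorem path_eq {c : ℝ≥0 → T.Sp} (hc : Continuous c) (hf : ∀ s, T.f (c s) = T.f (c 0) + s)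
    (t : ℝ≥0) : c t = T.up t (c 0) := by
  obtain ⟨i, hi, h1⟩ := T.ex_pt (c t)
  obtain ⟨j, hj, h0⟩ := T.ex_pt (c 0)
  have key := (isPreconnected_Icc (a := (0 : ℝ≥0)) (b := t)).constant_of_mapsTo
    (finite_range fun k => max (T.f (c t)) (T.m i k)).isDiscrete
    (f := fun s => max (T.f (c t)) (T.g i (c s)))
    (continuous_const.max ((T.cont_g i).comp hc)).continuousOn
    (fun s hs => by
      obtain ⟨k, hk, h2⟩ := T.ex_pt (c s)
      refine ⟨k, ?_⟩
      have : T.f (c s) ≤ T.f (c t) := by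
        rw [hf s, hf t]; exact add_le_add_right (NNReal.coe_le_coe.mpr hs.2) _
      simp only
      rw [(congrArg (T.g i) h2).trans T.g_pt, ← max_assoc, max_eq_left this])
    (x := 0) (y := t) ⟨le_rfl, zero_le⟩ ⟨zero_le, le_rfl⟩
  have e1 : T.g i (c t) = T.f (c t) := by rw [h1, g_pt, f_pt, max_eq_left hi]
  have e0 : T.m i j ≤ T.g i (c 0) := by rw [h0, g_pt]; exact le_max_right _ _
  rw [e1, max_self] at key
  rw [h1, h0, up_pt, pt_eq]
  exact ⟨hf t, e0.trans (key ▸ le_max_right _ _)⟩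

variable {T} {T' T'' : MT n}

theorem comm (α : C(T.Sp, T'.Sp)) {ε : ℝ} (h : ∀ x, T'.f (α x) = T.f x + ε) (t : ℝ≥0) (x : T.Sp) :
    α (T.up t x) = T'.up t (α x) := by
  have := T'.path_eq (c := fun s => α (T.up s x)) (α.continuous.comp (T.cont_path x))
    (fun s => by rw [h, h, f_up, up_zero]; ring) t
  simpa only [up_zero] using this

theorem Inter.symm {ε : ℝ≥0} : T.Inter T' ε → T'.Inter T ε :=
  fun ⟨α, β, h1, h2, h3, h4⟩ => ⟨β, α, h2, h1, h4, h3⟩

theorem Inter.refl : T.Inter T 0 :=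
  ⟨.id _, .id _, by simp, by simp, by simp [up_zero], by simp [up_zero]⟩

theorem Inter.trans {ε δ : ℝ≥0} : T.Inter T' ε → T'.Inter T'' δ → T.Inter T'' (ε + δ) :=
  fun ⟨α, β, h1, h2, h3, h4⟩ ⟨α', β', k1, k2, k3, k4⟩ => ⟨α'.comp α, β.comp β',
    fun x => by simp [k1, h1, add_assoc], fun y => by simp [k2, h2]; ring,
    fun x => by
      simp only [ContinuousMap.comp_apply]
      rw [k3, comm β h2, h3, up_up, mul_add],
    fun y => by
      simp only [ContinuousMap.comp_apply]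
      rw [h4, comm α' k1, k4, up_up, mul_add, add_comm]⟩

theorem Inter.dI_le {ε : ℝ≥0} (h : T.Inter T' ε) : T.dI T' ≤ ε := iInf₂_le ε h

theorem dI_self : T.dI T = 0 := le_antisymm Inter.refl.dI_le zero_le

theorem dI_comm : T.dI T' = T'.dI T :=
  le_antisymm (le_iInf₂ fun _ h => h.symm.dI_le) (le_iInf₂ fun _ h => h.symm.dI_le)

theorem dI_tri : T.dI T'' ≤ T.dI T' + T'.dI T'' :=
  ENNReal.le_iInf₂_add_iInf₂ fun _ h _ h' => (h.trans h').dI_le

/-- `MT n` carries the interleaving distance. -/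
noncomputable instance : PseudoEMetricSpace (MT n) where
  edist := dI
  edist_self _ := dI_self
  edist_comm _ _ := dI_comm
  edist_triangle _ _ _ := dI_tri

/-- Intrinsic metric: infimum of the `d_I`-lengths of continuous paths in `MT n`. -/
noncomputable def intr (T T' : MT n) : ℝ≥0∞ := ⨅ γ : Path T T', eVariationOn γ univ

end MT

end Pool.Agent.H.MP_4761b7_gt
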